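import Pool.Agent.H85.SK.Defs

/-!
# The bivector density of a metric and an almost complex structure: definitions
-/

open Set Metric MeasureTheory Filter Topology
open scoped ContDiff NNReal RealInnerProductSpace

noncomputable section

set_option maxSynthPendingDepth 3

namespace Pool.Agent.H85.GD

open Pool.Agent.W9h56.BE Pool.Agent.W5h72.BR Pool.Agent.H85.KA Pool.Agent.H85.SK

variable {E : Type*} [NormedAddCommGroup E] [InnerProductSpace ℝ E]

/-- the one-jets of the metrics `g` and `g'` agree at the points of `∂M` -/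
def SameJet (g g' : E → E →L[ℝ] E →L[ℝ] ℝ) : Prop :=
  ∀ p ∈ sphere (0 : E) 1, g' p = g p ∧ fderiv ℝ g' p = fderiv ℝ g p

variable [FiniteDimensional ℝ E]

/-- the components, in an orthonormal basis of `E`, of the skew part of `-√det B A B⁻¹` -/
def wp (B : E →L[ℝ] E →L[ℝ] ℝ) (A : E →L[ℝ] E) (l k : Fin (Module.finrank ℝ E)) : ℝ :=
  dens B / 2 *
    (inner ℝ (stdOrthonormalBasis ℝ E k) (A (Ring.inverse (gop B) (stdOrthonormalBasis ℝ E l))) -
      inner ℝ (stdOrthonormalBasis ℝ E l) (A (Ring.inverse (gop B) (stdOrthonormalBasis ℝ E k))))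

/-- the components of the bivector density `W` of `g` and `I`, the skew part of `-√det g I g⁻¹`; it
is `√det g` times the inverse of the fundamental form if `g` is hermitian -/
def wc (g : E → E →L[ℝ] E →L[ℝ] ℝ) (I : E → E →L[ℝ] E) (l k : Fin (Module.finrank ℝ E)) (x : E) :
    ℝ := wp (g x) (I x) l k

/-- the divergence `div W` of the bivector density -/
def dw (g : E → E →L[ℝ] E →L[ℝ] ℝ) (I : E → E →L[ℝ] E) (x : E) : E :=
  ∑ l, (∑ k, fderiv ℝ (wc g I l k) x (stdOrthonormalBasis ℝ E k)) • stdOrthonormalBasis ℝ E l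

/-- the vector density `I div W` -/
def lee (g : E → E →L[ℝ] E →L[ℝ] ℝ) (I : E → E →L[ℝ] E) (x : E) : E := I x (dw g I x)

/-- the density `div (I div W)` -/
def gau (g : E → E →L[ℝ] E →L[ℝ] ℝ) (I : E → E →L[ℝ] E) (x : E) : ℝ :=
  ∑ k, inner ℝ (stdOrthonormalBasis ℝ E k) (fderiv ℝ (lee g I) x (stdOrthonormalBasis ℝ E k))

end Pool.Agent.H85.GD
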