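import Pool.Agent.H85.SK.End
import Pool.Agent.H85.GD.Defs

/-!
# The bivector density of a metric and an almost complex structure
-/

open Set Metric MeasureTheory Filter Topology
open scoped ContDiff NNReal RealInnerProductSpace

noncomputable section

set_option maxSynthPendingDepth 3
set_option linter.unusedSectionVars false

namespace Pool.Agent.H85.GD

open Pool.Agent.W9h56.BE Pool.Agent.W5h72.BR Pool.Agent.H85.KA Pool.Agent.H85.SK

variable {E : Type*} [NormedAddCommGroup E] [InnerProductSpace ℝ E] [FiniteDimensional ℝ E]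

variable {g g' : E → E →L[ℝ] E →L[ℝ] ℝ} {I : E → E →L[ℝ] E} {ρ : E → ℝ}

lemma wp_skew (B : E →L[ℝ] E →L[ℝ] ℝ) (A : E →L[ℝ] E) (l k : Fin (Module.finrank ℝ E)) :
    wp B A l k = - wp B A k l := by
  simp only [wp]; ring

section regularity

lemma contDiff_gop : ContDiff ℝ ∞ (gop : (E →L[ℝ] E →L[ℝ] ℝ) → E →L[ℝ] E) := by
  have : (gop : (E →L[ℝ] E →L[ℝ] ℝ) → E →L[ℝ] E) = fun B =>
    (ContinuousLinearMap.compL ℝ E (E →L[ℝ] ℝ) E J) B := rfl
  rw [this]
  exact ContinuousLinearMap.contDiff _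

lemma contDiffAt_dens {B : E →L[ℝ] E →L[ℝ] ℝ} (hdet : 0 < (gram B).det) :
    ContDiffAt ℝ ∞ (dens : (E →L[ℝ] E →L[ℝ] ℝ) → ℝ) B := by
  have h1 : ContDiff ℝ ∞ (fun B : E →L[ℝ] E →L[ℝ] ℝ => (gram B).det) := by
    have h2 : (fun B : E →L[ℝ] E →L[ℝ] ℝ => (gram B).det) = fun B => ∑ σ : Equiv.Perm (Fin (Module.finrank ℝ E)),
        ((Equiv.Perm.sign σ : ℤ) : ℝ) *
          ∏ i, B (stdOrthonormalBasis ℝ E (σ i)) (stdOrthonormalBasis ℝ E i) := by
      funext B
      rw [Matrix.det_apply]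
      refine Finset.sum_congr rfl fun σ _ => ?_
      rw [← zsmul_eq_mul]
      rfl
    rw [h2]
    refine ContDiff.sum fun σ _ => contDiff_const.mul (contDiff_prod fun i _ => ?_)
    exact (contDiff_id.clm_apply contDiff_const).clm_apply contDiff_const
  exact h1.contDiffAt.sqrt hdet.ne'

lemma contDiffAt_wp {B : E →L[ℝ] E →L[ℝ] ℝ} (hu : IsUnit (gop B)) (hdet : 0 < (gram B).det)
    (A : E →L[ℝ] E) (l k : Fin (Module.finrank ℝ E)) :
    ContDiffAt ℝ ∞ (fun q : (E →L[ℝ] E →L[ℝ] ℝ) × (E →L[ℝ] E) => wp q.1 q.2 l k) (B, A) := by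
  have h1 : ContDiffAt ℝ ∞ (fun q : (E →L[ℝ] E →L[ℝ] ℝ) × (E →L[ℝ] E) => dens q.1) (B, A) :=
    ContDiffAt.comp (g := dens) (f := Prod.fst) (B, A) (contDiffAt_dens hdet) contDiffAt_fst
  have h2 : ContDiffAt ℝ ∞ (fun q : (E →L[ℝ] E →L[ℝ] ℝ) × (E →L[ℝ] E) =>
      Ring.inverse (gop q.1)) (B, A) := by
    obtain ⟨u, hu⟩ := hu
    have h3 : ContDiffAt ℝ ∞ Ring.inverse (gop B) := by
      rw [← hu]; exact contDiffAt_ringInverse ℝ u
    exact h3.comp (B, A) (contDiff_gop.contDiffAt.comp (B, A) contDiffAt_fst)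
  have h3 : ∀ v w : E, ContDiffAt ℝ ∞ (fun q : (E →L[ℝ] E →L[ℝ] ℝ) × (E →L[ℝ] E) =>
      (inner ℝ v (q.2 (Ring.inverse (gop q.1) w)) : ℝ)) (B, A) := fun v w =>
    contDiffAt_const.inner ℝ (contDiffAt_snd.clm_apply (h2.clm_apply contDiffAt_const))
  exact (h1.div_const 2).mul ((h3 _ _).sub (h3 _ _))

variable (hg : ContDiff ℝ ∞ g) (hI : ContDiff ℝ ∞ I)
include hg hI

lemma contDiffAt_wc {x : E} (hu : IsUnit (gop (g x))) (hdet : 0 < (gram (g x)).det)
    (l k : Fin (Module.finrank ℝ E)) : ContDiffAt ℝ ∞ (wc g I l k) x :=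
  ContDiffAt.comp (g := fun q : (E →L[ℝ] E →L[ℝ] ℝ) × (E →L[ℝ] E) => wp q.1 q.2 l k)
    (f := fun y => (g y, I y)) x (contDiffAt_wp hu hdet (I x) l k)
    (hg.contDiffAt.prodMk hI.contDiffAt)

lemma fderiv_wc {x : E} (hu : IsUnit (gop (g x))) (hdet : 0 < (gram (g x)).det)
    (l k : Fin (Module.finrank ℝ E)) : fderiv ℝ (wc g I l k) x =
      (fderiv ℝ (fun q : (E →L[ℝ] E →L[ℝ] ℝ) × (E →L[ℝ] E) => wp q.1 q.2 l k) (g x, I x)).comp
        ((fderiv ℝ g x).prod (fderiv ℝ I x)) := by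
  have h1 := ((contDiffAt_wp hu hdet (I x) l k).differentiableAt (by simp)).hasFDerivAt
  have h2 := ((hg.differentiable (by simp) x).hasFDerivAt).prodMk
    ((hI.differentiable (by simp) x).hasFDerivAt)
  exact (h1.comp x h2).fderiv

lemma contDiffAt_dw {x : E} (hu : IsUnit (gop (g x))) (hdet : 0 < (gram (g x)).det) :
    ContDiffAt ℝ 1 (dw g I) x := by
  refine ContDiffAt.sum fun l _ => ContDiffAt.smul (ContDiffAt.sum fun k _ => ?_) contDiffAt_const
  exact (((contDiffAt_wc hg hI hu hdet l k).fderiv_right (m := 1) (by norm_cast))).clm_apply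
    contDiffAt_const

lemma contDiffAt_lee {x : E} (hu : IsUnit (gop (g x))) (hdet : 0 < (gram (g x)).det) :
    ContDiffAt ℝ 1 (lee g I) x :=
  (hI.of_le (by norm_cast)).contDiffAt.clm_apply (contDiffAt_dw hg hI hu hdet)

end regularity

section trace

/-- the contraction of the bivector with the fundamental form -/
lemma contr_wp {B C : E →L[ℝ] E →L[ℝ] ℝ} {A : E →L[ℝ] E} (hn : 0 < Module.finrank ℝ E)
    (hs : ∀ v w, C v w = C w v) (hsq : ∀ v, A (A v) = -v) (ho : ∀ v w, C (A v) (A w) = C v w)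
    (hu : IsUnit (gop B)) :
    ∑ k, ∑ l, C (A (stdOrthonormalBasis ℝ E k)) (stdOrthonormalBasis ℝ E l) * wp B A l k =
      -(Module.finrank ℝ E * (ntr B C * dens B)) := by
  set b := stdOrthonormalBasis ℝ E with hb
  obtain ⟨u, hu⟩ := hu
  have h1 := tr_quot (B := B) (C := C) 1 u hu hn
  rw [← hb] at h1
  have h2 : tr b (gop C ∘L Ring.inverse (gop B)) = Module.finrank ℝ E * ntr B C := by
    rw [← h1, hb, tr_comm]
    rfl
  set Q := Ring.inverse (gop B) with hQ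
  have hskew : ∀ v w, C (A v) w = - C (A w) v := fun v w => fund_anti hs hsq ho v w
  -- the first sum
  have h3 : ∀ k, ∑ l, C (A (b k)) (b l) * inner ℝ (b l) (A (Q (b k))) =
      (inner ℝ (gop C (Q (b k))) (b k) : ℝ) := by
    intro k
    have h4 : ∑ l, C (A (b k)) (b l) * inner ℝ (b l) (A (Q (b k))) = C (A (b k)) (A (Q (b k))) := by
      conv_rhs => rw [← b.sum_repr' (A (Q (b k)))]
      rw [map_sum]
      refine Finset.sum_congr rfl fun l _ => ?_
      rw [map_smul, smul_eq_mul, mul_comm]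
    rw [h4, ho, inner_gop, hs]
  have h5 : ∑ k, ∑ l, C (A (b k)) (b l) * inner ℝ (b l) (A (Q (b k))) =
      Module.finrank ℝ E * ntr B C := by
    rw [← h2, tr]
    refine Finset.sum_congr rfl fun k _ => ?_
    rw [h3, ContinuousLinearMap.comp_apply, real_inner_comm]
  have h6 : ∑ k, ∑ l, C (A (b k)) (b l) * inner ℝ (b k) (A (Q (b l))) =
      -(Module.finrank ℝ E * ntr B C) := by
    rw [← h5, Finset.sum_comm, ← Finset.sum_neg_distrib]
    refine Finset.sum_congr rfl fun l _ => ?_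
    rw [← Finset.sum_neg_distrib]
    refine Finset.sum_congr rfl fun k _ => ?_
    rw [hskew (b k) (b l)]
    ring
  have h7 : ∑ k, ∑ l, C (A (b k)) (b l) * wp B A l k = dens B / 2 *
      (∑ k, ∑ l, C (A (b k)) (b l) * inner ℝ (b k) (A (Q (b l))) -
        ∑ k, ∑ l, C (A (b k)) (b l) * inner ℝ (b l) (A (Q (b k)))) := by
    rw [← Finset.sum_sub_distrib, Finset.mul_sum]
    refine Finset.sum_congr rfl fun k _ => ?_
    rw [← Finset.sum_sub_distrib, Finset.mul_sum]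
    refine Finset.sum_congr rfl fun l _ => ?_
    rw [wp]
    ring
  rw [h7, h5, h6]
  ring

end trace

end Pool.Agent.H85.GD
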