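import Pool.Agent.H85.GD.Core

/-!
# The divergence identity
-/

open Set Metric MeasureTheory Filter Topology
open scoped ContDiff NNReal RealInnerProductSpace

noncomputable section

set_option maxSynthPendingDepth 3
set_option linter.unusedSectionVars false

namespace Pool.Agent.H85.GD

open Pool.Agent.W9h56.BE Pool.Agent.W5h72.BR Pool.Agent.H85.KA Pool.Agent.H85.SK

variable {E : Type*} [NormedAddCommGroup E] [InnerProductSpace ℝ E] [FiniteDimensional ℝ E]
  {g g' : E → E →L[ℝ] E →L[ℝ] ℝ} {I : E → E →L[ℝ] E} {ρ : E → ℝ}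

/-- the pointwise data -/
structure Pg (g g' : E → E →L[ℝ] E →L[ℝ] ℝ) (I : E → E →L[ℝ] E) (ρ : E → ℝ) : Prop where
  hg : ContDiff ℝ ∞ g
  hg' : ContDiff ℝ ∞ g'
  hI : ContDiff ℝ ∞ I
  hP : IsPotential g I ρ
  hm : IsMetric g
  hm' : IsMetric g'
  hsq : ∀ x ∈ closedBall (0 : E) 1, ∀ v, I x (I x v) = -v
  ho : ∀ x ∈ closedBall (0 : E) 1, ∀ v w, g x (I x v) (I x w) = g x v w
  hj : ∀ p ∈ sphere (0 : E) 1, g' p = g p ∧ fderiv ℝ g' p = fderiv ℝ g p

lemma unit_gop (hm : IsMetric g) {x : E} (hx : x ∈ closedBall (0 : E) 1) : IsUnit (gop (g x)) := by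
  borelize E
  exact unit_G (hm.pos x hx)

lemma det_pos (hm : IsMetric g) {x : E} (hx : x ∈ closedBall (0 : E) 1) : 0 < (gram (g x)).det :=
  (frame hm hx).choose_spec.2.2

/-- for a hermitian metric with closed fundamental form the bivector density is the weighted
inverse -/
lemma wc_eq (hm : IsMetric g) (hsq : ∀ x ∈ closedBall (0 : E) 1, ∀ v, I x (I x v) = -v)
    (ho : ∀ x ∈ closedBall (0 : E) 1, ∀ v w, g x (I x v) (I x w) = g x v w) {x : E}
    (hx : x ∈ closedBall (0 : E) 1) (l k : Fin (Module.finrank ℝ E)) :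
    wc g I l k x = - inner ℝ (stdOrthonormalBasis ℝ E k)
      (wt (op (fund g I)) x (stdOrthonormalBasis ℝ E l)) := by
  borelize E
  obtain ⟨uI, hI⟩ := unit_I (hsq x hx)
  obtain ⟨uG, hG⟩ := unit_gop hm hx
  have hanti : Anti (op (fund g I) x) := anti_op fun v w =>
    fund_anti (hm.symm x hx) (hsq x hx) (ho x hx) v w
  have h1 : op (fund g I) x = ((uG * uI : (E →L[ℝ] E)ˣ) : E →L[ℝ] E) := by
    rw [Units.val_mul, hG, hI]; rfl
  have h2 : (↑uI⁻¹ : E →L[ℝ] E) = - I x := by
    have h3 : (↑uI⁻¹ : E →L[ℝ] E) * (uI : E →L[ℝ] E) = 1 := uI.inv_mul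
    ext v
    have h4 := congrArg (fun T : E →L[ℝ] E => T (I x v)) h3
    simp only [hI] at h4
    have h5 : (↑uI⁻¹ : E →L[ℝ] E) (I x (I x v)) = I x v := h4
    rw [hsq x hx, map_neg] at h5
    rw [neg_apply, ← h5, neg_neg]
  have h3 : Ring.inverse (gop (g x)) = (↑uG⁻¹ : E →L[ℝ] E) := by rw [← hG]; exact Ring.inverse_unit uG
  have h4 : Ring.inverse (op (fund g I) x) = - (I x ∘L Ring.inverse (gop (g x))) := by
    rw [h1, Ring.inverse_unit, mul_inv_rev, Units.val_mul, h2, h3]
    ext v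
    rfl
  have h5 : Anti (Ring.inverse (op (fund g I) x)) := by
    rw [h1, Ring.inverse_unit]
    exact anti_inv hanti _ h1.symm
  have e3 : pf (op (fund g I) x) = dens (g x) := pf_op (hsq x hx) (det_pos hm hx)
  have h6 : ∀ v, I x (Ring.inverse (gop (g x)) v) = - Ring.inverse (op (fund g I) x) v := fun v => by
    rw [h4, neg_apply, neg_neg, ContinuousLinearMap.comp_apply]
  rw [wc, wp, h6, h6, wt, e3, smul_apply, inner_smul_right, inner_neg_right, inner_neg_right]
  have h7 := h5 (stdOrthonormalBasis ℝ E k) (stdOrthonormalBasis ℝ E l)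
  rw [real_inner_comm] at h7
  rw [h7]
  ring

namespace Pg

variable (D : Pg g g' I ρ)
include D

/-- the divergence of the bivector density of `g` vanishes -/
lemma dw_zero {x : E} (hx : x ∈ closedBall (0 : E) 1) : dw g I x = 0 := by
  set b := stdOrthonormalBasis ℝ E with hb
  have hF := (contDiff_fundI D.hg D.hI)
  have hF1 : ContDiff ℝ 1 (fund g I) := hF.of_le (by norm_cast)
  have hOm : ContDiff ℝ 1 (op (fund g I)) := contDiff_op hF1
  have ha : ∀ x ∈ closedBall (0 : E) 1, ∀ v w, fund g I x v w = - fund g I x w v := fun x hx =>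
    fund_anti (D.hm.symm x hx) (D.hsq x hx) (D.ho x hx)
  have hu : IsUnit (op (fund g I) x) := by
    borelize E
    exact (unit_gop D.hm hx).mul (unit_I (D.hsq x hx))
  have h1 : ∀ l k, fderiv ℝ (wc g I l k) x (b k) = - inner ℝ (b k) (fderiv ℝ (wt (op (fund g I))) x (b k) (b l)) := by
    intro l k
    have hW := contDiffAt_wt b hOm.contDiffAt hu
    have d1 := ((contDiffAt_wc D.hg D.hI (unit_gop D.hm hx) (det_pos D.hm hx) l k).differentiableAt
      (by simp)).hasFDerivAt
    have d2 := ((contDiffAt_ent hW (b k) (b l)).differentiableAt (by norm_num)).hasFDerivAt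
    have h2 := fderiv_zero_of_ball hx (d1.add d2) fun y hy => by
      simp only [Pi.add_apply]
      rw [wc_eq D.hm D.hsq D.ho hy, neg_add_cancel]
    have h3 := congrArg (fun T : E →L[ℝ] ℝ => T (b k)) h2
    simp only [add_apply, zero_apply] at h3
    rw [fderiv_ent hW] at h3
    linarith
  have h2 : ∀ l, ∑ k, fderiv ℝ (wc g I l k) x (b k) = 0 := by
    intro l
    simp only [h1]
    rw [Finset.sum_neg_distrib, div_wt b hOm.contDiffAt hu (anti_op (ha x hx)) (fun u v w => by
      rw [real_inner_comm (fderiv ℝ (op (fund g I)) x u w) v, fderiv_op hF1, fderiv_op hF1]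
      exact fund_skew D.hg D.hI ha hx u v w) (fun u v w => by
      rw [fderiv_op hF1, fderiv_op hF1, fderiv_op hF1]
      exact closed_pot D.hg D.hI D.hP hx u v w) (b l), neg_zero]
  rw [dw, ← hb]
  simp only [h2, zero_smul, Finset.sum_const_zero]

lemma lee_zero {x : E} (hx : x ∈ closedBall (0 : E) 1) : lee g I x = 0 := by
  rw [lee, D.dw_zero hx, map_zero]

lemma gau_zero {x : E} (hx : x ∈ closedBall (0 : E) 1) : gau g I x = 0 := by
  have d1 := ((contDiffAt_lee D.hg D.hI (unit_gop D.hm hx) (det_pos D.hm hx)).differentiableAt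
    (by norm_num)).hasFDerivAt
  have h1 : fderiv ℝ (lee g I) x = 0 := fderiv_zero_of_ball hx d1 fun y hy => D.lee_zero hy
  rw [gau, h1]
  simp

/-- the difference of the components -/
def dc (_ : Pg g g' I ρ) (l k : Fin (Module.finrank ℝ E)) (x : E) : ℝ :=
  wc g' I l k x - wc g I l k x

/-- the vector field -/
def vf (D : Pg g g' I ρ) (k : Fin (Module.finrank ℝ E)) (x : E) : ℝ :=
  ∑ l, dcFun I ρ x (stdOrthonormalBasis ℝ E l) * D.dc l k x +
    ρ x * inner ℝ (stdOrthonormalBasis ℝ E k) (lee g' I x)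

lemma c_dc {x : E} (hx : x ∈ closedBall (0 : E) 1) (l k : Fin (Module.finrank ℝ E)) :
    ContDiffAt ℝ 1 (D.dc l k) x :=
  ((contDiffAt_wc D.hg' D.hI (unit_gop D.hm' hx) (det_pos D.hm' hx) l k).sub
    (contDiffAt_wc D.hg D.hI (unit_gop D.hm hx) (det_pos D.hm hx) l k)).of_le (by norm_cast)

lemma c_vf {x : E} (hx : x ∈ closedBall (0 : E) 1) (k : Fin (Module.finrank ℝ E)) :
    ContDiffAt ℝ 1 (D.vf k) x := by
  refine ContDiffAt.add (ContDiffAt.sum fun l _ => ContDiffAt.mul ?_ (D.c_dc hx l k))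
    (ContDiffAt.mul ?_ (contDiffAt_const.inner ℝ
      (contDiffAt_lee D.hg' D.hI (unit_gop D.hm' hx) (det_pos D.hm' hx))))
  · exact (((contDiff_dcFun D.hI D.hP.1).clm_apply contDiff_const).of_le
      (by norm_cast)).contDiffAt
  · exact (D.hP.1.of_le (by norm_cast)).contDiffAt

lemma jet_wc {p : E} (hp : p ∈ sphere (0 : E) 1) (l k : Fin (Module.finrank ℝ E)) :
    fderiv ℝ (wc g' I l k) p = fderiv ℝ (wc g I l k) p := by
  have hpM := mem_of_sphere hp
  obtain ⟨h0, h1⟩ := D.hj p hp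
  rw [fderiv_wc D.hg' D.hI (unit_gop D.hm' hpM) (det_pos D.hm' hpM),
    fderiv_wc D.hg D.hI (unit_gop D.hm hpM) (det_pos D.hm hpM), h0, h1]

lemma z_vf {p : E} (hp : p ∈ sphere (0 : E) 1) (k : Fin (Module.finrank ℝ E)) : D.vf k p = 0 := by
  have h1 : ∀ l k, D.dc l k p = 0 := fun l k => by
    rw [dc, wc, wc, (D.hj p hp).1, sub_self]
  have h2 : dw g' I p = 0 := by
    rw [← D.dw_zero (mem_of_sphere hp), dw, dw]
    simp only [D.jet_wc hp]
  simp only [vf, h1, mul_zero, Finset.sum_const_zero, lee, h2, map_zero, inner_zero_right, add_zero]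

/-- **the divergence identity** -/
lemma div_vf (hn : 0 < Module.finrank ℝ E) {x : E} (hx : x ∈ closedBall (0 : E) 1) :
    ∑ k, fderiv ℝ (D.vf k) x (stdOrthonormalBasis ℝ E k) =
      -(Module.finrank ℝ E / 2 * (ntr (g' x) (g x) * dens (g' x) - dens (g x))) +
        ρ x * gau g' I x := by
  set b := stdOrthonormalBasis ℝ E with hb
  have dθ : HasFDerivAt (dcFun I ρ) (fderiv ℝ (dcFun I ρ) x) x :=
    ((contDiff_dcFun D.hI D.hP.1).differentiable (by simp) x).hasFDerivAt
  have dρ : HasFDerivAt ρ (fderiv ℝ ρ x) x := (D.hP.1.differentiable (by simp) x).hasFDerivAt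
  have dD : ∀ l k, HasFDerivAt (D.dc l k) (fderiv ℝ (D.dc l k) x) x := fun l k =>
    ((D.c_dc hx l k).differentiableAt (by norm_num)).hasFDerivAt
  have dL : HasFDerivAt (lee g' I) (fderiv ℝ (lee g' I) x) x :=
    ((contDiffAt_lee D.hg' D.hI (unit_gop D.hm' hx) (det_pos D.hm' hx)).differentiableAt
      (by norm_num)).hasFDerivAt
  have h1 : ∀ k, fderiv ℝ (D.vf k) x (b k) =
      ∑ l, (dcFun I ρ x (b l) * fderiv ℝ (D.dc l k) x (b k) +
        D.dc l k x * fderiv ℝ (dcFun I ρ) x (b k) (b l)) +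
      (ρ x * inner ℝ (b k) (fderiv ℝ (lee g' I) x (b k)) +
        inner ℝ (b k) (lee g' I x) * fderiv ℝ ρ x (b k)) := by
    intro k
    have h2 : HasFDerivAt (D.vf k) _ x :=
      (HasFDerivAt.fun_sum fun l _ => (dθ.clm_apply (hasFDerivAt_const (b l) x)).mul (dD l k)).add
        (dρ.mul ((hasFDerivAt_const (b k) x).inner ℝ dL))
    rw [h2.fderiv]
    simp only [FunLike.coe_sum, Finset.sum_apply, add_apply, smul_apply, smul_eq_mul,
      ContinuousLinearMap.comp_apply, ContinuousLinearMap.prod_apply, fderivInnerCLM_apply,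
      zero_apply, inner_zero_left, add_zero, map_zero, zero_add, ContinuousLinearMap.flip_apply]
    rfl
  simp only [h1, Finset.sum_add_distrib]
  -- the terms
  have e1 : ∑ k, ∑ l, D.dc l k x * fderiv ℝ (dcFun I ρ) x (b k) (b l) =
      -(Module.finrank ℝ E / 2 * (ntr (g' x) (g x) * dens (g' x) - dens (g x))) := by
    have s1 : ∑ k, ∑ l, D.dc l k x * fderiv ℝ (dcFun I ρ) x (b l) (b k) =
        - ∑ k, ∑ l, D.dc l k x * fderiv ℝ (dcFun I ρ) x (b k) (b l) := by
      rw [Finset.sum_comm, ← Finset.sum_neg_distrib]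
      refine Finset.sum_congr rfl fun k _ => ?_
      rw [← Finset.sum_neg_distrib]
      refine Finset.sum_congr rfl fun l _ => ?_
      have : D.dc k l x = - D.dc l k x := by
        rw [dc, dc, wc, wc, wp_skew _ _ k l, wc, wc, wp_skew (g x) _ k l]; ring
      rw [this]; ring
    have s2 : ∑ k, ∑ l, fund g I x (b k) (b l) * D.dc l k x =
        2 * ∑ k, ∑ l, D.dc l k x * fderiv ℝ (dcFun I ρ) x (b k) (b l) := by
      have : ∑ k, ∑ l, fund g I x (b k) (b l) * D.dc l k x =
          ∑ k, ∑ l, D.dc l k x * fderiv ℝ (dcFun I ρ) x (b k) (b l) -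
            ∑ k, ∑ l, D.dc l k x * fderiv ℝ (dcFun I ρ) x (b l) (b k) := by
        simp only [← Finset.sum_sub_distrib]
        refine Finset.sum_congr rfl fun k _ => Finset.sum_congr rfl fun l _ => ?_
        rw [D.hP.2 x hx]; ring
      rw [this, s1]; ring
    have s3 : ∑ k, ∑ l, fund g I x (b k) (b l) * D.dc l k x =
        -(Module.finrank ℝ E * (ntr (g' x) (g x) * dens (g' x))) -
          -(Module.finrank ℝ E * (ntr (g x) (g x) * dens (g x))) := by
      rw [← contr_wp hn (D.hm.symm x hx) (D.hsq x hx) (D.ho x hx) (unit_gop D.hm' hx),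
        ← contr_wp hn (D.hm.symm x hx) (D.hsq x hx) (D.ho x hx) (unit_gop D.hm hx)]
      simp only [← Finset.sum_sub_distrib]
      refine Finset.sum_congr rfl fun k _ => Finset.sum_congr rfl fun l _ => ?_
      rw [fund_apply, dc, wc, wc, ← hb]; ring
    borelize E
    rw [ntr_self hn D.hm hx] at s3
    linarith
  have e2 : ∑ k, ∑ l, dcFun I ρ x (b l) * fderiv ℝ (D.dc l k) x (b k) =
      - fderiv ℝ ρ x (lee g' I x) := by
    have s1 : ∀ l k, fderiv ℝ (D.dc l k) x (b k) =
        fderiv ℝ (wc g' I l k) x (b k) - fderiv ℝ (wc g I l k) x (b k) := by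
      intro l k
      have d1 := ((contDiffAt_wc D.hg' D.hI (unit_gop D.hm' hx) (det_pos D.hm' hx)
        l k).differentiableAt (by simp)).hasFDerivAt
      have d2 := ((contDiffAt_wc D.hg D.hI (unit_gop D.hm hx) (det_pos D.hm hx)
        l k).differentiableAt (by simp)).hasFDerivAt
      have d3 : HasFDerivAt (D.dc l k) _ x := d1.sub d2
      rw [d3.fderiv, sub_apply]
    have s2 : ∑ k, ∑ l, dcFun I ρ x (b l) * fderiv ℝ (D.dc l k) x (b k) =
        dcFun I ρ x (dw g' I x - dw g I x) := by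
      rw [Finset.sum_comm, dw, dw, ← hb, ← Finset.sum_sub_distrib, map_sum]
      refine Finset.sum_congr rfl fun l _ => ?_
      rw [← sub_smul, map_smul, smul_eq_mul, ← Finset.sum_sub_distrib, ← Finset.mul_sum, mul_comm]
      congr 1
      exact Finset.sum_congr rfl fun k _ => s1 l k
    rw [s2, D.dw_zero hx, sub_zero, dcFun, neg_apply, ContinuousLinearMap.comp_apply, lee]
  have e3 : ∑ k, inner ℝ (b k) (lee g' I x) * fderiv ℝ ρ x (b k) = fderiv ℝ ρ x (lee g' I x) := by
    conv_rhs => rw [← b.sum_repr' (lee g' I x)]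
    rw [map_sum]
    exact Finset.sum_congr rfl fun k _ => by rw [map_smul, smul_eq_mul]
  have e4 : ∑ k, ρ x * inner ℝ (b k) (fderiv ℝ (lee g' I) x (b k)) = ρ x * gau g' I x := by
    rw [← Finset.mul_sum, gau]
  rw [e1, e2, e3, e4]
  ring

end Pg

end Pool.Agent.H85.GD
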