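import Pool.Agent.H85.GD.Div

/-!
# Boundary rigidity of Kaehler metrics: the Gauduchon defect of the other metric
-/

open Set Metric MeasureTheory Filter Topology
open scoped ContDiff NNReal RealInnerProductSpace

noncomputable section

set_option maxSynthPendingDepth 3
set_option linter.unusedSectionVars false

namespace Pool.Agent.H85.GD

open Pool.Agent.W9h56.BE Pool.Agent.W5h72.BR Pool.Agent.H85.KA Pool.Agent.H85.SK

variable {E : Type*} [NormedAddCommGroup E] [InnerProductSpace ℝ E] [FiniteDimensional ℝ E]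
  {g g' : E → E →L[ℝ] E →L[ℝ] ℝ} {e L e' L' : E → E → E} {I : E → E →L[ℝ] E} {ρ : E → ℝ}
  [MeasurableSpace E] [BorelSpace E]

namespace Pg

variable (D : Pg g g' I ρ)
include D

lemma cont_gau : ContinuousOn (gau g' I) (closedBall (0 : E) 1) := by
  intro x hx
  refine ContinuousAt.continuousWithinAt ?_
  refine tendsto_finsetSum _ fun k _ => ?_
  have h1 := contDiffAt_lee D.hg' D.hI (unit_gop D.hm' hx) (det_pos D.hm' hx)
  exact continuousAt_const.inner (𝕜 := ℝ)
    ((h1.fderiv_right (m := 0) (by norm_num)).continuousAt.clm_apply continuousAt_const)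

/-- **the energy of the identity** -/
theorem energy_eq' (hn : 0 < Module.finrank ℝ E) :
    Module.finrank ℝ E / 2 * ((∫ x in closedBall (0 : E) 1, ntr (g' x) (g x) * dens (g' x)) - vol g) =
      ∫ x in closedBall (0 : E) 1, ρ x * gau g' I x := by
  set b := stdOrthonormalBasis ℝ E with hb
  have hcd := (continuous_dens D.hm.cont).continuousOn (s := closedBall (0 : E) 1)
  have i1 : IntegrableOn (fun x => ntr (g' x) (g x) * dens (g' x)) (closedBall (0 : E) 1) :=
    intOn ((continuousOn_ntr D.hm' D.hm.cont).mul (continuous_dens D.hm'.cont).continuousOn)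
  have i2 : IntegrableOn (fun x => ρ x * gau g' I x) (closedBall (0 : E) 1) :=
    intOn (D.hP.1.continuous.continuousOn.mul D.cont_gau)
  have h1 := int_div hn b (V := D.vf) (fun k x hx => D.c_vf hx k) (fun k p hp => D.z_vf hp k)
  rw [setIntegral_congr_fun measurableSet_closedBall fun x hx => D.div_vf hn hx, integral_add,
    integral_neg, integral_const_mul, integral_sub i1 (intOn hcd)] at h1
  · rw [vol]
    linarith
  · exact ((i1.sub (intOn hcd)).const_mul _).neg
  · exact i2

end Pg

/-- rigidity -/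
theorem rigid (hn : 0 < Module.finrank ℝ E) (h : Simple g e L) (h' : Simple g' e' L')
    (D : Pg g g' I ρ) (hρ : ∫ x in closedBall (0 : E) 1, ρ x * gau g' I x ≤ 0)
    (hd : ∀ p ∈ sphere (0 : E) 1, ∀ q ∈ sphere (0 : E) 1, gdist g p q = gdist g' p q) :
    ∀ x ∈ closedBall (0 : E) 1, g' x = g x := by
  have hv := vol_eq hn h h' (rho_of_gdist h h' hd)
  have hi := D.energy_eq' hn
  have hn' : (0 : ℝ) < Module.finrank ℝ E := by exact_mod_cast hn
  have h1 : (∫ x in closedBall (0 : E) 1, ntr (g' x) (g x) * dens (g' x)) ≤ vol g := by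
    by_contra hcon
    push Not at hcon
    have := mul_pos (half_pos hn') (sub_pos.2 hcon)
    linarith
  have he : energy 2 g' g id ≤ vol g' := by
    rw [← hv]
    refine le_trans (le_of_eq ?_) h1
    refine setIntegral_congr_fun measurableSet_closedBall fun x _ => ?_
    simp only [pull_id']
    norm_num
  have hiso := energy_eq hn h' D.hm bdry_id (fun p hp q hq => (hd p hp q hq).ge) one_lt_two he
  intro x hx
  rw [← pull_id' g x]
  exact (hiso x hx).symm

/-- the main theorem -/
theorem main (hn : 3 ≤ Module.finrank ℝ E) (hg : IsSimpleM g) (hg' : IsSimpleM g')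
    (hI : IsAlmostComplex I) (ho : IsHermitian g I) (hP : IsPotential g I ρ)
    (hj : IsHermitian g' I ∨ SameJet g g')
    (hρ : ∫ x in closedBall (0 : E) 1, ρ x * gau g' I x ≤ 0) (hd : BdryLE g g')
    (hd' : BdryLE g' g) : ∀ x ∈ closedBall (0 : E) 1, g' x = g x := by
  obtain ⟨e, L, h⟩ := hg
  obtain ⟨e', L', h'⟩ := hg'
  have hgd : ∀ p ∈ sphere (0 : E) 1, ∀ q ∈ sphere (0 : E) 1, gdist g p q = gdist g' p q := by
    intro p hp q hq
    have h1 := hd p hp q hq
    have h2 := hd' p hp q hq
    rw [gd_eq, gd_eq] at h1 h2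
    exact le_antisymm h1 h2
  have hj' : SameJet g g' := by
    rcases hj with ho' | hj
    · exact fun p hp => jet_eq h h' (hI.1.of_le (by norm_cast)) hI.2 ho ho'
        (rho_of_gdist h h' hgd) hp
    · exact hj
  exact rigid (by omega) h h' (I := I) (ρ := ρ) ⟨h.smooth, h'.smooth, hI.1, hP, Simple_isMetric h,
    Simple_isMetric h', hI.2, ho, hj'⟩ hρ hgd

end Pool.Agent.H85.GD
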